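import Pool.Agent.Helper914.Corona.Shil

/-!
# A closed subalgebra of `H^∞` of type A that is not of type B

`Li = L^∞(T)`, where the circle `T` is `ℝ/ℤ` with Haar measure, with a.e. pointwise multiplication.
-/

set_option autoImplicit false
open MeasureTheory AddCircle Complex Filter
open scoped ComplexConjugate ENNReal

namespace Pool.Agent.Results.MP_e9741b_an.TypeANotTypeB
open Pool.Agent.Helper914.Corona.Toep Pool.Agent.Helper914.Corona

/-- The negative Fourier coefficients of `u` vanish. -/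
def Analytic (u : Li) : Prop := ∀ n : ℤ, n < 0 → fourierCoeff (T := 1) u n = 0

lemma Analytic_iff {u : Li} : Analytic u ↔ u ∈ Hi := by
  constructor
  · intro h n hn; rw [co_eq]; exact h n hn
  · intro h n hn; rw [← co_eq]; exact h n hn

lemma Analytic.mul {a b : Li} (ha : Analytic a) (hb : Analytic b) : Analytic (a * b) :=
  Analytic_iff.2 (mul_mem_Hi (Analytic_iff.1 ha) (Analytic_iff.1 hb))

lemma Analytic.add {a b : Li} (ha : Analytic a) (hb : Analytic b) : Analytic (a + b) :=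
  Analytic_iff.2 (Hi.add_mem (Analytic_iff.1 ha) (Analytic_iff.1 hb))

lemma Analytic.const (c : ℂ) : Analytic (algebraMap ℂ Li c) := by
  rw [Analytic_iff, Algebra.algebraMap_eq_smul_one]
  exact Hi.smul_mem c one_mem_Hi

/-- `H^∞`: the functions of `L^∞` whose negative Fourier coefficients vanish. -/
noncomputable def Hinf : Subalgebra ℂ Li where
  carrier := {u | Analytic u}
  mul_mem' := Analytic.mul
  add_mem' := Analytic.add
  algebraMap_mem' := Analytic.const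

/-- A Douglas algebra: a closed subalgebra of `L^∞` that contains `H^∞`. -/
def IsDouglas (D : Subalgebra ℂ Li) : Prop := IsClosed (D : Set Li) ∧ Hinf ≤ D

/-- Inner functions. -/
def IsInner (u : Li) : Prop := u ∈ Hinf ∧ ∀ᵐ t ∂(haarAddCircle (T := 1)), ‖u t‖ = 1

/-- `I_D`: the inner functions invertible in `D`. -/
def innerInv (D : Subalgebra ℂ Li) : Set Li := {u | IsInner u ∧ ∃ v ∈ D, u * v = 1}

/-- `QD = D ∩ conj D`. -/
def QD (D : Subalgebra ℂ Li) : Set Li := {u | u ∈ D ∧ star u ∈ D}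

/-- `CD`: the closed self-adjoint subalgebra generated by `I_D`. -/
def CD (D : Subalgebra ℂ Li) : Set Li :=
  {u | ∀ A : Subalgebra ℂ Li, IsClosed (A : Set Li) → (∀ f ∈ A, star f ∈ A) →
    innerInv D ⊆ A → u ∈ A}

/-- A boundary of the commutative Banach algebra `A`: a set of characters on which every `|f|`,
`f ∈ A`, attains its maximum over all characters. -/
def IsBoundary (A : Type) [NormedCommRing A] [NormedAlgebra ℂ A]
    (B : Set (WeakDual.characterSpace ℂ A)) : Prop :=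
  ∀ f : A, ∃ m ∈ B, ∀ m' : WeakDual.characterSpace ℂ A, ‖m' f‖ ≤ ‖m f‖

/-- The Shilov boundary of `A`: the intersection of all closed boundaries. -/
def shilovBoundary (A : Type) [NormedCommRing A] [NormedAlgebra ℂ A] :
    Set (WeakDual.characterSpace ℂ A) :=
  ⋂₀ {B | IsClosed B ∧ IsBoundary A B}

/-- The Shilov boundary of `A` is the set of the characters that have modulus one on `S`. -/
def ShilovEq (A : Type) [NormedCommRing A] [NormedAlgebra ℂ A] (S : Set A) : Prop :=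
  shilovBoundary A = {m | ∀ u ∈ S, ‖m u‖ = 1}

/-- Type A. -/
def TypeA (X : Subalgebra ℂ Li) : Prop :=
  (∃ D : Subalgebra ℂ Li, IsDouglas D ∧ CD D ∩ Hinf ⊆ X ∧ (X : Set Li) ⊆ QD D ∩ Hinf) ∧
  ShilovEq X {I | IsInner (I : Li)} ∧
  (∀ f ∈ X, ∀ I ∈ X, IsInner I → f * star I ∈ Hinf → f * star I ∈ X) ∧
  (∀ f ∈ X, ∀ g ∈ Hinf, f * g = 1 → g ∈ X)

/-- A `C*`-subalgebra of `L^∞`. -/
def IsCStarSubalgebra (V : Set Li) : Prop :=
  IsClosed V ∧ (∀ f ∈ V, ∀ g ∈ V, f + g ∈ V) ∧ (∀ f ∈ V, ∀ g ∈ V, f * g ∈ V) ∧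
  (∀ c : ℂ, ∀ f ∈ V, c • f ∈ V) ∧ (∀ f ∈ V, star f ∈ V)

/-- Type B. -/
def TypeB (X : Subalgebra ℂ Li) : Prop :=
  ∃ (V : Set Li) (D : Subalgebra ℂ Li), IsCStarSubalgebra V ∧ IsDouglas D ∧
    CD D ⊆ V ∧ V ⊆ QD D ∧ (X : Set Li) = V ∩ Hinf

lemma mem_Hinf {u : Li} : u ∈ Hinf ↔ u ∈ Hi := Analytic_iff

lemma star_eq (u : Li) : star u = cj u := by
  apply Lp.ext
  filter_upwards [Lp.coeFn_star u, coeFn_cj u] with t h1 h2
  rw [h1, h2]; rfl

lemma inner_iff {u : Li} : IsInner u ↔ u ∈ Hi ∧ ∀ᵐ t ∂mu, ‖u t‖ = 1 := by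
  rw [IsInner, mem_Hinf]

lemma inner_cj {u : Li} (h : ∀ᵐ t ∂mu, ‖u t‖ = 1) : cj u * u = 1 := by
  apply Lp.ext
  filter_upwards [h, coeFn_mul (cj u) u, coeFn_cj u, coeFn_one] with t h1 h2 h3 h4
  rw [h2, h3, h4, ← Complex.normSq_eq_conj_mul_self, Complex.normSq_eq_norm_sq, h1]
  simp

lemma DD_douglas : IsDouglas DD := ⟨isClosed_DD, fun u hu => Hi_sub_DD (mem_Hinf.1 hu)⟩

/-- continuous functions as a closed self-adjoint subalgebra -/
noncomputable def CT : Subalgebra ℂ Li where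
  carrier := {u | ∃ c : C(UnitAddCircle, ℂ), u = jj c}
  mul_mem' := by
    rintro _ _ ⟨a, rfl⟩ ⟨b, rfl⟩
    exact ⟨a * b, (jj_mul a b).symm⟩
  add_mem' := by
    rintro _ _ ⟨a, rfl⟩ ⟨b, rfl⟩
    exact ⟨a + b, (map_add jj a b).symm⟩
  algebraMap_mem' := fun c => ⟨c • 1, by
    rw [map_smul, jj_one, Algebra.algebraMap_eq_smul_one]⟩

lemma norm_jj (c : C(UnitAddCircle, ℂ)) : ‖jj c‖ = ‖c‖ := by
  apply le_antisymm (norm_jj_le c)
  rw [ContinuousMap.norm_le _ (norm_nonneg _)]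
  intro t
  have h1 : ∀ y : YY, ‖c y‖ ≤ ‖jj c‖ := by
    intro y
    rw [jj_eq_io, norm_io]
    exact (res c).norm_coe_le_norm y
  by_cases ht : t = 0
  · subst ht
    have h2 : Tendsto (fun y : YY => ‖c y‖) L0 (nhds ‖c 0‖) :=
      ((c.continuous.norm).tendsto 0).comp tendsto_comap
    exact le_of_tendsto h2 (Eventually.of_forall h1)
  · exact h1 ⟨t, ht⟩

lemma isClosed_CT : IsClosed (CT : Set Li) := by
  have h1 : Isometry (jj : C(UnitAddCircle, ℂ) → Li) :=
    AddMonoidHomClass.isometry_of_norm jj norm_jj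
  have h2 : (CT : Set Li) = Set.range jj := by
    ext u
    constructor
    · rintro ⟨c, rfl⟩; exact ⟨c, rfl⟩
    · rintro ⟨c, rfl⟩; exact ⟨c, rfl⟩
  rw [h2]
  exact h1.isClosedEmbedding.isClosed_range

lemma star_CT {f : Li} (hf : f ∈ CT) : star f ∈ CT := by
  obtain ⟨c, rfl⟩ := hf
  refine ⟨star c, ?_⟩
  rw [star_eq]
  apply Lp.ext
  filter_upwards [coeFn_cj (jj c), coeFn_jj c, coeFn_jj (star c)] with t h1 h2 h3
  rw [h1, h2, h3]; rfl

lemma CD_sub : CD DD ∩ Hinf ⊆ XX := by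
  rintro u ⟨h1, h2⟩
  have h3 : u ∈ CT := by
    apply h1 CT isClosed_CT (fun f hf => star_CT hf)
    rintro v ⟨hv, w, hw, hvw⟩
    rw [inner_iff] at hv
    exact inner_DD hv.1 (inner_cj hv.2) hw hvw
  obtain ⟨c, rfl⟩ := h3
  exact jj_mem_XX (mem_Hinf.1 h2)

theorem typeA_XX : TypeA XX := by
  refine ⟨⟨DD, DD_douglas, CD_sub, ?_⟩, ?_, ?_, ?_⟩
  · intro f hf
    refine ⟨⟨Hi_sub_DD hf.1, ?_⟩, mem_Hinf.2 hf.1⟩
    rw [star_eq]; exact cj_mem_DD hf
  · have hE : {m : WeakDual.characterSpace ℂ XX | ∀ u ∈ {I : XX | IsInner (I : Li)},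
        ‖m u‖ = 1} = EE := by
      ext m
      constructor
      · intro h I hI h1
        exact h ⟨I, hI⟩ (inner_iff.2 ⟨hI.1, h1⟩)
      · intro h I h1
        exact h I I.2 (inner_iff.1 h1).2
    unfold ShilovEq
    rw [hE]
    apply Set.Subset.antisymm
    · exact Set.sInter_subset_of_mem ⟨isClosed_EE, EE_boundary⟩
    · apply Set.subset_sInter
      rintro B ⟨hB, hbd⟩
      exact EE_subset hB hbd
  · intro f hf I hI hin h
    rw [star_eq] at h ⊢
    exact div_mem_XX hf hI (inner_cj (inner_iff.1 hin).2) (mem_Hinf.1 h)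
  · intro f hf g hg hfg
    exact inv_mem_XX hf hfg (mem_Hinf.1 hg)

theorem not_typeB_XX : ¬ TypeB XX := by
  rintro ⟨V, D, ⟨hVc, hVa, hVm, hVs, hVst⟩, -, -, -, hX⟩
  have hsub : ∀ f ∈ XX, f ∈ V := by
    intro f hf
    have : f ∈ (XX : Set Li) := hf
    rw [hX] at this
    exact this.1
  have h1 : (1 : Li) ∈ V := hsub 1 XX.one_mem
  have hz : ex 1 ∈ V := hsub _ ex1_mem
  have hz' : ex (-1) ∈ V := by
    rw [← cj_ex, ← star_eq]; exact hVst _ hz
  have hpow : ∀ n : ℕ, ex n ∈ V ∧ ex (-(n : ℤ)) ∈ V := by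
    intro n
    induction n with
    | zero => simpa [ex_zero] using h1
    | succ n ih =>
      constructor
      · have := hVm _ ih.1 _ hz
        rw [ex_mul] at this
        exact_mod_cast this
      · have := hVm _ ih.2 _ hz'
        rw [ex_mul] at this
        have e : (-(n : ℤ)) + -1 = -((n + 1 : ℕ) : ℤ) := by push_cast; ring
        rwa [e] at this
  have hex : ∀ k : ℤ, ex k ∈ V := by
    intro k
    rcases Int.eq_nat_or_neg k with ⟨n, rfl | rfl⟩
    · exact (hpow n).1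
    · exact (hpow n).2
  let W : Submodule ℂ Li :=
    { carrier := V
      add_mem' := fun {a b} ha hb => hVa a ha b hb
      zero_mem' := by
        have := hVs 0 _ h1
        rwa [zero_smul] at this
      smul_mem' := fun c a ha => hVs c a ha }
  have hjj : ∀ c : C(UnitAddCircle, ℂ), jj c ∈ V := fun c => jj_mem_of_ex (V := W) hVc hex c
  have hfw : cj fw ∈ V := by rw [← star_eq]; exact hVst _ (hsub _ fw_mem)
  -- `fwb` differs from the conjugate of `fw` by a continuous function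
  obtain ⟨g, hg, hgF⟩ := fw_Rep.cj
  obtain ⟨g', hg', hgF'⟩ := fwb_Rep
  have hdiff : g' - g ∈ c0 := by
    have h3 := c0_sub hgF' hgF
    have e : g' - sig (star Fw) - (g - sig (star Fw)) = g' - g := by ring
    rwa [e] at h3
  obtain ⟨c, hc⟩ := io_c0_eq hdiff
  have hfwb : fwb ∈ V := by
    have e : fwb = cj fw + jj c := by
      rw [hg', hg, ← hc, map_sub]; ring
    rw [e]
    exact hVa _ hfw _ (hjj c)
  have : fwb ∈ (XX : Set Li) := by
    rw [hX]
    exact ⟨hfwb, mem_Hinf.2 fwb_Hi⟩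
  exact fwb_not_mem this

/-- There is a closed subalgebra of `H^∞` of type A that is not of type B. -/
theorem result : ∃ X : Subalgebra ℂ Li,
    IsClosed (X : Set Li) ∧ X ≤ Hinf ∧ TypeA X ∧ ¬ TypeB X :=
  ⟨XX, isClosed_XX, fun _ hf => mem_Hinf.2 hf.1, typeA_XX, not_typeB_XX⟩

end Pool.Agent.Results.MP_e9741b_an.TypeANotTypeB
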